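import Pool.Agent.V11282.RL.Tube6
import Pool.Agent.V11282.RL.Idx
import Pool.Agent.V11282.RL.EED

set_option autoImplicit false

/-!
# Reflective lattices `2U + L(-1)` of signature `(2, 22)`

If `L` is an even positive definite lattice of rank `20` and `2U + L(-1)` carries a nonconstant
modular form for the discriminant kernel (with a character of finite order, of any weight) all of
whose zeros lie on mirrors of reflections of the lattice, then `L` is in the genus of
`2E_8 + D_4`.

The definitions (`form`, `quadric`, `discKernel`, `IsModularForm`, `IsReflective`,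
`IsReflectiveLattice`, `SameGenus`, `gramM`, `gramEED`) are in `Pool/Agent/Y813/RL/Defs.lean`.
-/

namespace Pool.Agent.Results.MP_f1d0b6_nt.ReflectiveGenus

open Pool.Agent.Y813.Refl

/-- **Main theorem.** Let `G` be a Gram matrix of an even positive definite lattice `L` of rank
`20` and let `A` be the affine cone over one of the components of the domain of
`M = 2U + L(-1)`, that is, a connected component of the quadric. If `M` is reflective, then `L`
lies in the genus of `2E_8 + D_4`. -/
theorem result (G : Matrix (Fin 20) (Fin 20) ℤ) (hsymm : G.IsSymm) (heven : ∀ i, Even (G i i))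
    (hpos : ∀ x : Fin 20 → ℝ, x ≠ 0 → 0 < form G x x)
    (Z₀ : Fin 4 ⊕ Fin 20 → ℂ) (hZ₀ : Z₀ ∈ quadric (gramM G))
    (hR : IsReflectiveLattice (gramM G) (connectedComponentIn (quadric (gramM G)) Z₀)) :
    SameGenus G gramEED := by
  have h : Pool.Agent.Y813.RL.PosSymm G := ⟨hsymm, hpos⟩
  obtain ⟨k, F, hF⟩ := Pool.Agent.V11282.RL.tube_of_reflective h heven
    (Pool.Agent.Y813.RL.reflective_component h hZ₀ hR)
  obtain ⟨h1, h2⟩ := Pool.Agent.V11282.RL.disc_of_tube h heven hF
  exact Pool.Agent.V11282.RL.jobGenus G h heven h1 h2

end Pool.Agent.Results.MP_f1d0b6_nt.ReflectiveGenus
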